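import Pool.Agent.N963.GN.StmM

set_option autoImplicit false

/-!
# Mean square of a cusp form on rays close to the real axis: the lower bound (task M2b)
-/

namespace Pool.Agent.N558.GN

open Complex Filter Topology MeasureTheory
open scoped ComplexConjugate
open Pool.Agent.N963.GN

namespace M2b

lemma norm_term (n : ℕ) (τ : ℂ) :
    ‖cexp (2 * Real.pi * I * ((n + 1 : ℕ) : ℂ) * τ)‖ =
      Real.exp (-(2 * Real.pi * ((n : ℝ) + 1) * τ.im)) := by
  rw [Complex.norm_exp]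
  congr 1
  have h1 : 2 * (Real.pi : ℂ) * I * ((n + 1 : ℕ) : ℂ) * τ =
      ((2 * Real.pi * ((n : ℝ) + 1) : ℝ) : ℂ) * (I * τ) := by
    push_cast
    ring
  rw [h1, Complex.re_ofReal_mul, Complex.I_mul_re]
  ring

lemma summ (k : ℕ) (B r : ℝ) (hr : 0 < r) :
    Summable fun n : ℕ => B * ((n : ℝ) + 1) ^ k * Real.exp (-(r * ((n : ℝ) + 1))) := by
  have h1 := (summable_nat_add_iff 1).2 (Real.summable_pow_mul_exp_neg_nat_mul k hr)
  refine (h1.mul_left B).congr fun n => ?_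
  push_cast
  rw [neg_mul, mul_assoc]

variable {N k : ℕ} {F : ℂ → ℂ} {b : ℕ → ℂ} {κ : ℂ}

lemma contF (h : MF N k F b κ) {τ : ℂ} (hτ : 0 < τ.im) : ContinuousAt F τ := by
  obtain ⟨B, hB, hbb⟩ := h.bb
  set S : Set ℂ := {z | τ.im / 2 < z.im} with hS
  have hSo : IsOpen S := isOpen_lt continuous_const Complex.continuous_im
  have h1 : ContinuousOn (fun z => ∑' n : ℕ,
      b (n + 1) * cexp (2 * Real.pi * I * ((n + 1 : ℕ) : ℂ) * z)) S := by
    refine continuousOn_tsum (u := fun n : ℕ => B * ((n : ℝ) + 1) ^ k *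
      Real.exp (-(2 * Real.pi * (τ.im / 2) * ((n : ℝ) + 1)))) ?_ (summ k B _ (by positivity)) ?_
    · intro n
      exact (continuous_const.mul (Complex.continuous_exp.comp
        (continuous_const.mul continuous_id))).continuousOn
    · intro n z hz
      rw [norm_mul, norm_term]
      have h2 : ‖b (n + 1)‖ ≤ B * ((n : ℝ) + 1) ^ k := by
        have := hbb (n + 1) (by omega)
        push_cast at this
        exact this
      have h3 : Real.exp (-(2 * Real.pi * ((n : ℝ) + 1) * z.im)) ≤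
          Real.exp (-(2 * Real.pi * (τ.im / 2) * ((n : ℝ) + 1))) := by
        apply Real.exp_le_exp.2
        have h4 : τ.im / 2 ≤ z.im := le_of_lt hz
        have h5 : 0 ≤ 2 * Real.pi * ((n : ℝ) + 1) := by positivity
        nlinarith [mul_le_mul_of_nonneg_left h4 h5]
      exact mul_le_mul h2 h3 (Real.exp_pos _).le (by positivity)
  have h2 : ContinuousOn F S := h1.congr fun z hz =>
    (h.sum z (lt_trans (by positivity) hz)).tsum_eq.symm
  exact h2.continuousAt (hSo.mem_nhds (by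
    show τ.im / 2 < τ.im
    linarith))

lemma lowF (h : MF N k F b κ) : ∃ Y0 : ℝ, 1 ≤ Y0 ∧ ∀ τ : ℂ, Y0 ≤ τ.im →
    ‖b 1‖ / 2 * Real.exp (-(2 * Real.pi * τ.im)) ≤ ‖F τ‖ := by
  obtain ⟨B, hB, hbb⟩ := h.bb
  have hb1 : 0 < ‖b 1‖ := norm_pos_iff.2 h.b1
  set g : ℕ → ℝ := fun n => B * ((n : ℝ) + 2) ^ k * Real.exp (-(2 * Real.pi * ((n : ℝ) + 1))) with hg
  have hgs : Summable g := by
    have h1 := (summable_nat_add_iff 1).2 (summ k B (2 * Real.pi) (by positivity))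
    refine (h1.mul_left (Real.exp (2 * Real.pi))).congr fun n => ?_
    have h2 : Real.exp (-(2 * Real.pi * ((n : ℝ) + 1))) = Real.exp (2 * Real.pi) *
        Real.exp (-(2 * Real.pi * ((n : ℝ) + 2))) := by
      rw [← Real.exp_add]
      ring_nf
    rw [hg]
    simp only
    rw [h2]
    push_cast
    ring_nf
  have hg0 : ∀ n, 0 ≤ g n := fun n => by rw [hg]; positivity
  set S : ℝ := ∑' n, g n with hS
  have hS0 : 0 ≤ S := tsum_nonneg hg0
  refine ⟨1 + S / ‖b 1‖, by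
    have : 0 ≤ S / ‖b 1‖ := by positivity
    linarith, fun τ hτ => ?_⟩
  have hτ1 : 1 ≤ τ.im := by
    have : 0 ≤ S / ‖b 1‖ := by positivity
    linarith
  have hsum := h.sum τ (by linarith)
  have h0 := hsum.summable.tsum_eq_zero_add
  rw [hsum.tsum_eq] at h0
  have h1 : ∀ n : ℕ, ‖b (n + 1 + 1) * cexp (2 * Real.pi * I * ((n + 1 + 1 : ℕ) : ℂ) * τ)‖ ≤
      Real.exp (-(2 * Real.pi * τ.im)) * Real.exp (-(2 * Real.pi * (τ.im - 1))) * g n := by
    intro n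
    rw [norm_mul, norm_term]
    have h2 : ‖b (n + 1 + 1)‖ ≤ B * ((n : ℝ) + 2) ^ k := by
      have := hbb (n + 1 + 1) (by omega)
      push_cast at this
      rwa [show (n : ℝ) + 1 + 1 = n + 2 by ring] at this
    have h3 : Real.exp (-(2 * Real.pi * (((n + 1 : ℕ) : ℝ) + 1) * τ.im)) ≤
        Real.exp (-(2 * Real.pi * τ.im)) * Real.exp (-(2 * Real.pi * (τ.im - 1))) *
          Real.exp (-(2 * Real.pi * ((n : ℝ) + 1))) := by
      rw [← Real.exp_add, ← Real.exp_add]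
      apply Real.exp_le_exp.2
      push_cast
      have h4 : 0 ≤ (n : ℝ) * (τ.im - 1) := by
        have : (0 : ℝ) ≤ n := Nat.cast_nonneg n
        exact mul_nonneg this (by linarith)
      nlinarith [mul_nonneg Real.pi_pos.le h4]
    calc ‖b (n + 1 + 1)‖ * Real.exp (-(2 * Real.pi * (((n + 1 : ℕ) : ℝ) + 1) * τ.im))
        ≤ (B * ((n : ℝ) + 2) ^ k) * (Real.exp (-(2 * Real.pi * τ.im)) *
          Real.exp (-(2 * Real.pi * (τ.im - 1))) * Real.exp (-(2 * Real.pi * ((n : ℝ) + 1)))) :=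
          mul_le_mul h2 h3 (Real.exp_pos _).le (by positivity)
      _ = _ := by rw [hg]; ring
  have h2 : ‖∑' n : ℕ, b (n + 1 + 1) * cexp (2 * Real.pi * I * ((n + 1 + 1 : ℕ) : ℂ) * τ)‖ ≤
      Real.exp (-(2 * Real.pi * τ.im)) * Real.exp (-(2 * Real.pi * (τ.im - 1))) * S := by
    rw [hS, ← tsum_mul_left]
    exact tsum_of_norm_bounded (hgs.mul_left _).hasSum h1
  have h3 : Real.exp (-(2 * Real.pi * (τ.im - 1))) * S ≤ ‖b 1‖ / 2 := by
    have h4 : S / ‖b 1‖ ≤ τ.im - 1 := by linarith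
    have h5 : 1 + 2 * Real.pi * (τ.im - 1) ≤ Real.exp (2 * Real.pi * (τ.im - 1)) := by
      have := Real.add_one_le_exp (2 * Real.pi * (τ.im - 1))
      linarith
    have h6 : S ≤ ‖b 1‖ * (τ.im - 1) := by
      rw [div_le_iff₀ hb1] at h4
      linarith
    have h7 : 0 < Real.exp (2 * Real.pi * (τ.im - 1)) := Real.exp_pos _
    rw [Real.exp_neg, inv_mul_le_iff₀ h7]
    have h8 : 3 < Real.pi := Real.pi_gt_three
    have h9 : 0 ≤ ‖b 1‖ * (τ.im - 1) := by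
      apply mul_nonneg hb1.le
      linarith
    nlinarith [mul_le_mul_of_nonneg_left h5 hb1.le, mul_le_mul_of_nonneg_right h8.le h9]
  have h4 : ‖b (0 + 1) * cexp (2 * Real.pi * I * ((0 + 1 : ℕ) : ℂ) * τ)‖ =
      ‖b 1‖ * Real.exp (-(2 * Real.pi * τ.im)) := by
    rw [norm_mul, norm_term]
    simp
  rw [h0]
  have h5 := norm_sub_le_norm_add (b (0 + 1) * cexp (2 * Real.pi * I * ((0 + 1 : ℕ) : ℂ) * τ))
    (∑' n : ℕ, b (n + 1 + 1) * cexp (2 * Real.pi * I * ((n + 1 + 1 : ℕ) : ℂ) * τ))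
  rw [h4] at h5
  refine le_trans ?_ h5
  have h6 : 0 < Real.exp (-(2 * Real.pi * τ.im)) := Real.exp_pos _
  have h7 : Real.exp (-(2 * Real.pi * τ.im)) * Real.exp (-(2 * Real.pi * (τ.im - 1))) * S ≤
      Real.exp (-(2 * Real.pi * τ.im)) * (‖b 1‖ / 2) := by
    rw [mul_assoc]
    exact mul_le_mul_of_nonneg_left h3 h6.le
  nlinarith [h2, h7]

/-- Transfer of a point close to `p/q` to the cusp at infinity. -/
lemma transfer (h : MF N k F b κ) {p q : ℤ} (hNq : (N : ℤ) ∣ q) (hNp : (N : ℤ) ∣ p + 1)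
    (hco : IsCoprime p q) {x y : ℝ} (hy : 0 < y) :
    ∃ τ' : ℂ, τ'.im = y / ((q * x - p) ^ 2 + (q * y) ^ 2) ∧
      ‖F τ'‖ ^ 2 = ((q * x - p) ^ 2 + (q * y) ^ 2) ^ k * ‖F ((x : ℂ) + (y : ℂ) * I)‖ ^ 2 := by
  obtain ⟨u, v, huv⟩ := hco
  set τ : ℂ := (x : ℂ) + (y : ℂ) * I with hτ
  have hre : τ.re = x := by simp [hτ]
  have him : τ.im = y := by simp [hτ]
  have huv' : -u * -p - -v * q = 1 := by linarith
  have hN1 : (N : ℤ) ∣ -u - 1 := by
    have : -u - 1 = (-u) * (p + 1) - v * q := by linarith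
    rw [this]
    exact dvd_sub (Dvd.dvd.mul_left hNp _) (Dvd.dvd.mul_left hNq _)
  have hN2 : (N : ℤ) ∣ -p - 1 := by
    have : -p - 1 = -(p + 1) := by ring
    rw [this]
    exact (dvd_neg).2 hNp
  have haut := h.aut (-u) (-v) q (-p) huv' hNq hN1 hN2 τ (by rw [him]; exact hy)
  have hnsq : Complex.normSq ((q : ℂ) * τ + ((-p : ℤ) : ℂ)) = (q * x - p) ^ 2 + (q * y) ^ 2 := by
    rw [Complex.normSq_apply]
    simp only [Complex.add_re, Complex.add_im, Complex.mul_re, Complex.mul_im, Complex.intCast_re,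
      Complex.intCast_im, hre, him]
    push_cast
    ring
  refine ⟨(((-u : ℤ) : ℂ) * τ + ((-v : ℤ) : ℂ)) / ((q : ℂ) * τ + ((-p : ℤ) : ℂ)), ?_, ?_⟩
  swap
  · rw [haut, norm_mul, norm_pow, mul_pow, ← hnsq, Complex.normSq_eq_norm_sq]
    ring
  · rw [Complex.div_im, hnsq, ← sub_div]
    congr 1
    simp only [Complex.add_re, Complex.add_im, Complex.mul_re, Complex.mul_im, Complex.intCast_re,
      Complex.intCast_im, hre, him]
    have h1 : (-(u : ℝ)) * (-(p : ℝ)) - (-(v : ℝ)) * q = 1 := by exact_mod_cast huv'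
    push_cast
    linear_combination y * h1

lemma norm_Km (N k : ℕ) (F : ℂ → ℂ) (κ : ℂ) (u σ δ : ℝ) (hσ : σ = 1 ∨ σ = -1) :
    ‖Km N k F κ ((u : ℂ) + (σ * (Real.pi / 2 - δ) : ℝ) * I)‖ ^ 2 =
      ‖κ‖ ^ 2 * ‖F (((-σ * (Real.exp u * Real.cos δ / Real.sqrt N) : ℝ) : ℂ) +
        ((Real.exp u * Real.sin δ / Real.sqrt N : ℝ) : ℂ) * I)‖ ^ 2 * Real.exp (k * u) := by
  set θ : ℝ := σ * (Real.pi / 2 - δ) with hθ
  have hc : Real.cos θ = Real.sin δ := by
    rcases hσ with h | h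
    · rw [hθ, h, one_mul, Real.cos_pi_div_two_sub]
    · rw [hθ, h, neg_one_mul, Real.cos_neg, Real.cos_pi_div_two_sub]
  have hs : Real.sin θ = σ * Real.cos δ := by
    rcases hσ with h | h
    · rw [hθ, h, one_mul, one_mul, Real.sin_pi_div_two_sub]
    · rw [hθ, h, neg_one_mul, neg_one_mul, Real.sin_neg, Real.sin_pi_div_two_sub]
  have h1 : I * cexp ((u : ℂ) + (θ : ℂ) * I) / (Real.sqrt N : ℝ) =
      ((-σ * (Real.exp u * Real.cos δ / Real.sqrt N) : ℝ) : ℂ) +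
        ((Real.exp u * Real.sin δ / Real.sqrt N : ℝ) : ℂ) * I := by
    rw [Complex.exp_add, Complex.exp_mul_I, ← Complex.ofReal_cos, ← Complex.ofReal_sin, hc, hs]
    push_cast
    linear_combination (σ * cexp u * Complex.cos δ / ((Real.sqrt N : ℝ) : ℂ)) * Complex.I_sq
  have h2 : ‖cexp ((k : ℂ) * ((u : ℂ) + (θ : ℂ) * I) / 2)‖ ^ 2 = Real.exp (k * u) := by
    rw [Complex.norm_exp, ← Real.exp_nat_mul]
    congr 1
    have h3 : (k : ℂ) * ((u : ℂ) + (θ : ℂ) * I) / 2 = ((k * u / 2 : ℝ) : ℂ) + ((k * θ / 2 : ℝ) : ℂ) * I := by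
      push_cast
      ring
    rw [h3, Complex.add_re, Complex.re_ofReal_mul, Complex.I_re, Complex.ofReal_re]
    push_cast
    ring
  rw [Km, norm_mul, norm_mul, mul_pow, mul_pow, h2, h1]

/-- The estimate at one point. -/
lemma point (h : MF N k F b κ) {Y0 : ℝ} (hY0 : 1 ≤ Y0)
    (hlow : ∀ τ : ℂ, Y0 ≤ τ.im → ‖b 1‖ / 2 * Real.exp (-(2 * Real.pi * τ.im)) ≤ ‖F τ‖)
    (s : ℤ) (hs : s = 1 ∨ s = -1) (hss : (s : ℝ) ^ 2 = 1) {p q : ℤ} {X Y δ Q rN : ℝ} (hδ : 0 < δ)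
    (hQ0 : 0 < Q) (hQ : Q ^ 2 * (15 * Y0 * δ) = 1) (hrN0 : 0 < rN) (hqp : (0 : ℝ) < q)
    (hTa : Q ≤ q) (hTb : (q : ℝ) ≤ 2 * Q) (hTc : (N : ℤ) ∣ q) (hTd : (N : ℤ) ∣ p - s)
    (hTe : IsCoprime p q) (hYu : 0 < Y) (hr3 : X - (p : ℝ) / q ≤ Y / 2)
    (hr4 : 0 ≤ X - (p : ℝ) / q) (hYle : Y ≤ 3 * δ) (hYge : δ / (2 * rN) ≤ Y) :
    (‖b 1‖ / 2 * Real.exp (-(2 * Real.pi * (30 * Y0 * rN)))) ^ 2 / (3 * δ / Y0) ^ k ≤
      ‖F (((-s * X : ℝ) : ℂ) + ((Y : ℝ) : ℂ) * I)‖ ^ 2 := by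
  have hqX : (q : ℝ) * X - p = q * (X - (p : ℝ) / q) := by field_simp
  set D : ℝ := (q * X - p) ^ 2 + (q * Y) ^ 2 with hD
  have hD1 : D ≤ 5 / 4 * (q * Y) ^ 2 := by
    have h1 : (q * X - p) ^ 2 ≤ (q * (Y / 2)) ^ 2 := by
      rw [hqX]
      have : (q : ℝ) * (X - (p : ℝ) / q) ≤ q * (Y / 2) := mul_le_mul_of_nonneg_left hr3 hqp.le
      have h0 : 0 ≤ (q : ℝ) * (X - (p : ℝ) / q) := mul_nonneg hqp.le hr4
      exact pow_le_pow_left₀ h0 this 2
    nlinarith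
  have hD2 : (q * Y) ^ 2 ≤ D := by
    have := sq_nonneg ((q : ℝ) * X - p)
    linarith
  have hD0 : 0 < D := lt_of_lt_of_le (by positivity) hD2
  have hq2 : (q : ℝ) ^ 2 ≤ 4 * Q ^ 2 := by nlinarith
  have hq1 : Q ^ 2 ≤ (q : ℝ) ^ 2 := by nlinarith
  have hY00 : 0 < Y0 := by linarith
  have hD3 : D ≤ 3 * δ / Y0 := by
    rw [le_div_iff₀ hY00]
    have h1 : (q * Y) ^ 2 ≤ 4 * Q ^ 2 * (3 * δ) ^ 2 := by
      rw [mul_pow]
      exact mul_le_mul hq2 (pow_le_pow_left₀ hYu.le hYle 2) (by positivity) (by positivity)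
    calc D * Y0 ≤ 5 / 4 * (4 * Q ^ 2 * (3 * δ) ^ 2) * Y0 := by
          refine mul_le_mul_of_nonneg_right (hD1.trans ?_) hY00.le
          exact mul_le_mul_of_nonneg_left h1 (by norm_num)
      _ = 3 * δ * (Q ^ 2 * (15 * Y0 * δ)) := by ring
      _ = 3 * δ := by rw [hQ, mul_one]
  have hD4 : Y0 * D ≤ Y := by
    calc Y0 * D ≤ Y0 * (5 / 4 * (4 * Q ^ 2 * (3 * δ * Y))) := by
          refine mul_le_mul_of_nonneg_left (hD1.trans ?_) hY00.le
          refine mul_le_mul_of_nonneg_left ?_ (by norm_num)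
          rw [mul_pow]
          refine mul_le_mul hq2 ?_ (by positivity) (by positivity)
          rw [sq]
          exact mul_le_mul_of_nonneg_right hYle hYu.le
      _ = (Q ^ 2 * (15 * Y0 * δ)) * Y := by ring
      _ = Y := by rw [hQ, one_mul]
  have hD5 : Y ≤ 30 * Y0 * rN * D := by
    have h1 : Q ^ 2 * (δ / (2 * rN) * Y) ≤ D := by
      refine le_trans ?_ hD2
      rw [mul_pow]
      refine mul_le_mul hq1 ?_ (by positivity) (by positivity)
      rw [sq]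
      exact mul_le_mul_of_nonneg_right hYge hYu.le
    calc Y = (Q ^ 2 * (15 * Y0 * δ)) * Y := by rw [hQ, one_mul]
      _ = 30 * Y0 * rN * (Q ^ 2 * (δ / (2 * rN) * Y)) := by field_simp; ring
      _ ≤ 30 * Y0 * rN * D := mul_le_mul_of_nonneg_left h1 (by positivity)
  -- the transfer
  have hco : IsCoprime (-s * p) q := by
    rcases hs with hs | hs
    · rw [hs, show -(1 : ℤ) * p = -p by ring]
      exact hTe.neg_left
    · rw [hs]
      simpa using hTe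
  have hNp : (N : ℤ) ∣ -s * p + 1 := by
    have h1 : s * s = 1 := by
      rcases hs with hs | hs <;> rw [hs] <;> norm_num
    have h2 : -s * p + 1 = -s * (p - s) := by linear_combination (-1 : ℤ) * h1
    rw [h2]
    exact Dvd.dvd.mul_left hTd _
  obtain ⟨τ', hτ1, hτ2⟩ := transfer h hTc hNp hco (x := -s * X) (y := Y) hYu
  have hDD : ((q : ℝ) * (-s * X) - ((-s * p : ℤ) : ℝ)) ^ 2 + ((q : ℝ) * Y) ^ 2 = D := by
    rw [hD]
    push_cast
    linear_combination ((q : ℝ) * X - p) ^ 2 * hss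
  rw [hDD] at hτ1 hτ2
  have hτ3 : Y0 ≤ τ'.im := by
    rw [hτ1, le_div_iff₀ hD0]
    exact hD4
  have hτ4 : τ'.im ≤ 30 * Y0 * rN := by
    rw [hτ1, div_le_iff₀ hD0]
    exact hD5
  have hF1 : ‖b 1‖ / 2 * Real.exp (-(2 * Real.pi * (30 * Y0 * rN))) ≤ ‖F τ'‖ := by
    refine le_trans ?_ (hlow τ' hτ3)
    refine mul_le_mul_of_nonneg_left (Real.exp_le_exp.2 ?_) (by positivity)
    have := mul_le_mul_of_nonneg_left hτ4 (by positivity : 0 ≤ 2 * Real.pi)
    linarith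
  have hF2 : (‖b 1‖ / 2 * Real.exp (-(2 * Real.pi * (30 * Y0 * rN)))) ^ 2 ≤
      (3 * δ / Y0) ^ k * ‖F (((-s * X : ℝ) : ℂ) + ((Y : ℝ) : ℂ) * I)‖ ^ 2 := by
    refine (pow_le_pow_left₀ (by positivity) hF1 2).trans ?_
    rw [hτ2]
    exact mul_le_mul_of_nonneg_right (pow_le_pow_left₀ hD0.le hD3 k) (by positivity)
  rw [div_le_iff₀ (by positivity)]
  exact hF2.trans_eq (mul_comm _ _)

/-- The main estimate for a family of fractions. -/
lemma key (h : MF N k F b κ) {Y0 : ℝ} (hY0 : 1 ≤ Y0)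
    (hlow : ∀ τ : ℂ, Y0 ≤ τ.im → ‖b 1‖ / 2 * Real.exp (-(2 * Real.pi * τ.im)) ≤ ‖F τ‖)
    (s : ℤ) (hs : s = 1 ∨ s = -1) (T : Finset (ℤ × ℤ)) {δ Q : ℝ} (hδ : 0 < δ) (hδ5 : δ ≤ 1 / 5)
    (hQ0 : 0 < Q) (hQ : Q ^ 2 * (15 * Y0 * δ) = 1)
    (hT : ∀ e ∈ T, Q ≤ e.2 ∧ (e.2 : ℝ) ≤ 2 * Q ∧ (N : ℤ) ∣ e.2 ∧ (N : ℤ) ∣ e.1 - s ∧
      IsCoprime e.1 e.2 ∧ 3 / 2 / Real.sqrt N * e.2 ≤ e.1 ∧ (e.1 : ℝ) ≤ 2 / Real.sqrt N * e.2) :
    T.card * (δ / 2) * (‖κ‖ ^ 2 * ((‖b 1‖ / 2 *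
      Real.exp (-(2 * Real.pi * (30 * Y0 * Real.sqrt N)))) ^ 2 / (3 * δ / Y0) ^ k)) ≤
      ∫ u in (0 : ℝ)..1, ‖Km N k F κ ((u : ℂ) + ((s : ℝ) * (Real.pi / 2 - δ) : ℝ) * I)‖ ^ 2 := by
  set rN : ℝ := Real.sqrt N with hrN
  have hN1 : (1 : ℝ) ≤ N := by exact_mod_cast h.hN
  have hrN1 : 1 ≤ rN := Real.one_le_sqrt.2 hN1
  have hrN0 : 0 < rN := by linarith
  have hsσ : (s : ℝ) = 1 ∨ (s : ℝ) = -1 := by
    rcases hs with hs | hs
    · left; rw [hs]; norm_num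
    · right; rw [hs]; norm_num
  have hss : (s : ℝ) ^ 2 = 1 := by rcases hsσ with h1 | h1 <;> rw [h1] <;> norm_num
  have hcos1 : Real.cos δ ≤ 1 := Real.cos_le_one δ
  have hcos2 : 49 / 50 ≤ Real.cos δ := by
    have := Real.one_sub_sq_div_two_le_cos (x := δ)
    nlinarith
  have hcos0 : 0 < Real.cos δ := by linarith
  have hsin1 : Real.sin δ ≤ δ := Real.sin_le hδ.le
  have hsin2 : δ * Real.cos δ ≤ Real.sin δ := by
    have h1 := Real.lt_tan hδ (by linarith [Real.pi_gt_three])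
    rw [Real.tan_eq_sin_div_cos, lt_div_iff₀ hcos0] at h1
    exact h1.le
  have hsin3 : δ / 2 ≤ Real.sin δ := by nlinarith
  have hsin0 : 0 < Real.sin δ := by linarith
  set X : ℝ → ℝ := fun u => Real.exp u * Real.cos δ / rN with hX
  set Y : ℝ → ℝ := fun u => Real.exp u * Real.sin δ / rN with hY
  have hYpos : ∀ u, 0 < Y u := fun u => by rw [hY]; positivity
  set G : ℝ → ℝ := fun u =>
    ‖Km N k F κ ((u : ℂ) + ((s : ℝ) * (Real.pi / 2 - δ) : ℝ) * I)‖ ^ 2 with hG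
  have hG1 : ∀ u, G u = ‖κ‖ ^ 2 * ‖F (((-s * X u : ℝ) : ℂ) + ((Y u : ℝ) : ℂ) * I)‖ ^ 2 *
      Real.exp (k * u) := fun u => norm_Km N k F κ u s δ hsσ
  have hGc : Continuous G := by
    rw [continuous_iff_continuousAt]
    intro u
    have h1 : G = fun u => ‖κ‖ ^ 2 * ‖F (((-s * X u : ℝ) : ℂ) + ((Y u : ℝ) : ℂ) * I)‖ ^ 2 *
      Real.exp (k * u) := funext hG1
    rw [h1]
    have h2 : Continuous fun u : ℝ => ((-s * X u : ℝ) : ℂ) + ((Y u : ℝ) : ℂ) * I := by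
      rw [hX, hY]
      fun_prop
    have h3 : ContinuousAt (fun u : ℝ => F (((-s * X u : ℝ) : ℂ) + ((Y u : ℝ) : ℂ) * I)) u := by
      refine ContinuousAt.comp (g := F) ?_ h2.continuousAt
      apply contF h
      simpa using hYpos u
    exact (continuousAt_const.mul (h3.norm.pow 2)).mul (by fun_prop)
  set m : ℝ := ‖κ‖ ^ 2 * ((‖b 1‖ / 2 *
      Real.exp (-(2 * Real.pi * (30 * Y0 * rN)))) ^ 2 / (3 * δ / Y0) ^ k) with hm
  set U : ℤ × ℤ → ℝ := fun e => Real.log ((e.1 : ℝ) / e.2 * rN / Real.cos δ) with hU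
  set J : ℤ × ℤ → Set ℝ := fun e => Set.Ioc (U e) (U e + δ / 2) with hJ
  -- basic facts on the fractions
  have hq : ∀ e ∈ T, (0 : ℝ) < e.2 := fun e he => lt_of_lt_of_le hQ0 (hT e he).1
  have hp : ∀ e ∈ T, (0 : ℝ) < e.1 := fun e he => by
    have := (hT e he).2.2.2.2.2.1
    have h2 := hq e he
    have h3 : 0 < 3 / 2 / rN * (e.2 : ℝ) := by positivity
    linarith
  have hr1 : ∀ e ∈ T, 3 / 2 ≤ (e.1 : ℝ) / e.2 * rN := fun e he => by
    have h1 := (hT e he).2.2.2.2.2.1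
    have h2 := hq e he
    have h3 : 3 / 2 / rN ≤ (e.1 : ℝ) / e.2 := by
      rw [le_div_iff₀ h2]
      exact h1
    rwa [div_le_iff₀ hrN0] at h3
  have hr2 : ∀ e ∈ T, (e.1 : ℝ) / e.2 * rN ≤ 2 := fun e he => by
    have h1 := (hT e he).2.2.2.2.2.2
    have h2 := hq e he
    have h3 : (e.1 : ℝ) / e.2 ≤ 2 / rN := by
      rw [div_le_iff₀ h2]
      exact h1
    rwa [le_div_iff₀ hrN0] at h3
  have hexpU : ∀ e ∈ T, Real.exp (U e) = (e.1 : ℝ) / e.2 * rN / Real.cos δ := fun e he =>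
    Real.exp_log (div_pos (by linarith [hr1 e he]) hcos0)
  have hU0 : ∀ e ∈ T, 0 ≤ U e := fun e he => by
    apply Real.log_nonneg
    rw [le_div_iff₀ hcos0]
    linarith [hr1 e he]
  have hU1 : ∀ e ∈ T, U e + δ / 2 ≤ 1 := fun e he => by
    have h1 : U e ≤ 1 - δ / 2 := by
      rw [hU]
      simp only
      rw [Real.log_le_iff_le_exp (div_pos (by linarith [hr1 e he]) hcos0)]
      have h2 : (e.1 : ℝ) / e.2 * rN / Real.cos δ ≤ 100 / 49 := by
        rw [div_le_iff₀ hcos0]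
        linarith [hr2 e he]
      have h3 : Real.exp (1 - δ / 2) = Real.exp 1 * Real.exp (-(δ / 2)) := by
        rw [← Real.exp_add]
        ring_nf
      have h4 : 1 - δ / 2 ≤ Real.exp (-(δ / 2)) := by
        have := Real.add_one_le_exp (-(δ / 2))
        linarith
      have h5 := Real.exp_one_gt_d9
      have h6 : (9 / 10 : ℝ) ≤ Real.exp (-(δ / 2)) := by linarith
      rw [h3]
      nlinarith
    linarith
  have hJsub : ∀ e ∈ T, J e ⊆ Set.Ioc 0 1 := fun e he u hu =>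
    ⟨lt_of_le_of_lt (hU0 e he) hu.1, hu.2.trans (hU1 e he)⟩
  -- the lower bound on each interval
  have hlow2 : ∀ e ∈ T, ∀ u ∈ J e, m ≤ G u := by
    intro e he u hu
    obtain ⟨p, q⟩ := e
    have hu01 := hJsub _ he hu
    have hqp := hq _ he
    have hpp := hp _ he
    obtain ⟨hTa, hTb, hTc, hTd, hTe, hTf, hTg⟩ := hT _ he
    have heU := hexpU _ he
    simp only at hqp hpp hTa hTb hTc hTd hTe hTf hTg heU
    have huU : 0 < u - U (p, q) := by linarith [hu.1]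
    have huU2 : u - U (p, q) ≤ δ / 2 := by linarith [hu.2]
    have hXpos : 0 < X u := by rw [hX]; positivity
    -- r = X u * exp (-(u - U))
    have hr : (p : ℝ) / q = X u * Real.exp (-(u - U (p, q))) := by
      rw [hX]
      simp only
      have h1 : Real.exp (-(u - U (p, q))) = Real.exp (U (p, q)) / Real.exp u := by
        rw [← Real.exp_sub]
        ring_nf
      rw [h1, heU]
      have h2 := (Real.exp_pos u).ne'
      field_simp
    have hYX : X u * δ ≤ Y u := by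
      have h1 : Y u = Real.exp u / rN * Real.sin δ := by rw [hY]; ring
      have h2 : X u = Real.exp u / rN * Real.cos δ := by rw [hX]; ring
      rw [h1, h2, mul_assoc]
      refine mul_le_mul_of_nonneg_left ?_ (by positivity)
      linarith
    have hr3 : X u - (p : ℝ) / q ≤ Y u / 2 := by
      have h1 := Real.add_one_le_exp (-(u - U (p, q)))
      rw [hr]
      have h2 : X u * (1 - (u - U (p, q))) ≤ X u * Real.exp (-(u - U (p, q))) :=
        mul_le_mul_of_nonneg_left (by linarith) hXpos.le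
      have h3 : X u * (u - U (p, q)) ≤ X u * (δ / 2) := mul_le_mul_of_nonneg_left huU2 hXpos.le
      nlinarith
    have hr4 : 0 ≤ X u - (p : ℝ) / q := by
      rw [hr]
      have h1 : Real.exp (-(u - U (p, q))) ≤ 1 := Real.exp_le_one_iff.2 (by linarith)
      nlinarith
    have hYle : Y u ≤ 3 * δ := by
      rw [hY]
      simp only
      rw [div_le_iff₀ hrN0]
      have h1 : Real.exp u ≤ 3 := by
        have h2 : Real.exp u ≤ Real.exp 1 := Real.exp_le_exp.2 hu01.2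
        linarith [Real.exp_one_lt_d9]
      calc Real.exp u * Real.sin δ ≤ 3 * δ := mul_le_mul h1 hsin1 hsin0.le (by norm_num)
        _ ≤ 3 * δ * rN := le_mul_of_one_le_right (by positivity) hrN1
    have hYge : δ / (2 * rN) ≤ Y u := by
      rw [hY]
      simp only
      have h1 : 1 ≤ Real.exp u := Real.one_le_exp hu01.1.le
      have h2 : δ / 2 ≤ Real.exp u * Real.sin δ := by nlinarith
      calc δ / (2 * rN) = δ / 2 / rN := by field_simp
        _ ≤ _ := by gcongr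
    have hF3 : (‖b 1‖ / 2 * Real.exp (-(2 * Real.pi * (30 * Y0 * rN)))) ^ 2 / (3 * δ / Y0) ^ k ≤
        ‖F (((-s * X u : ℝ) : ℂ) + ((Y u : ℝ) : ℂ) * I)‖ ^ 2 :=
      point h hY0 hlow s hs hss hδ hQ0 hQ hrN0 hqp hTa hTb hTc hTd hTe (hYpos u) hr3 hr4 hYle hYge
    rw [hG1, hm]
    have hexp1 : 1 ≤ Real.exp (k * u) := Real.one_le_exp (mul_nonneg (Nat.cast_nonneg k) hu01.1.le)
    calc ‖κ‖ ^ 2 * ((‖b 1‖ / 2 * Real.exp (-(2 * Real.pi * (30 * Y0 * rN)))) ^ 2 / (3 * δ / Y0) ^ k)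
        ≤ ‖κ‖ ^ 2 * ‖F (((-s * X u : ℝ) : ℂ) + ((Y u : ℝ) : ℂ) * I)‖ ^ 2 :=
          mul_le_mul_of_nonneg_left hF3 (by positivity)
      _ ≤ _ := le_mul_of_one_le_right (by positivity) hexp1
  -- disjointness
  have hdisj : ∀ e ∈ T, ∀ e' ∈ T, (e.1 : ℝ) * e'.2 < e'.1 * e.2 → Disjoint (J e) (J e') := by
    intro e he e' he' hlt
    have h1 : e.1 * e'.2 + 1 ≤ e'.1 * e.2 := by exact_mod_cast hlt
    have h1' : (e.1 : ℝ) * e'.2 + 1 ≤ e'.1 * e.2 := by exact_mod_cast h1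
    have hqe := hq e he
    have hqe' := hq e' he'
    have hpe := hp e he
    have hpe' := hp e' he'
    have h2 : U e' - U e = Real.log (((e'.1 : ℝ) * e.2) / (e.1 * e'.2)) := by
      rw [hU]
      simp only
      rw [← Real.log_div (by positivity) (by positivity)]
      congr 1
      field_simp
    have h3 : 1 - (((e'.1 : ℝ) * e.2) / (e.1 * e'.2))⁻¹ ≤ U e' - U e := by
      rw [h2]
      exact Real.one_sub_inv_le_log_of_pos (by positivity)
    have h4 : ((e.1 : ℝ) * e'.2) / (e'.1 * e.2) ≤ 1 - δ / 2 := by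
      rw [div_le_iff₀ (by positivity)]
      have h5 : (e'.1 : ℝ) ≤ 4 * Q := by
        have h6 := (hT e' he').2.2.2.2.2.2
        have h7 : 2 / rN * (e'.2 : ℝ) ≤ 2 * (2 * Q) := by
          refine mul_le_mul ?_ (hT e' he').2.1 hqe'.le (by norm_num)
          rw [div_le_iff₀ hrN0]
          linarith
        linarith
      have h8 : (e'.1 : ℝ) * e.2 ≤ 4 * Q * (2 * Q) :=
        mul_le_mul h5 (hT e he).2.1 hqe.le (by positivity)
      have h9 : Q ^ 2 * δ ≤ Q ^ 2 * δ * Y0 := le_mul_of_one_le_right (by positivity) hY0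
      have h10 : (e'.1 : ℝ) * e.2 * (δ / 2) ≤ 4 * Q * (2 * Q) * (δ / 2) :=
        mul_le_mul_of_nonneg_right h8 (by positivity)
      nlinarith
    rw [inv_div] at h3
    refine Set.disjoint_left.2 fun x hx hx' => ?_
    have h5 := hx.2
    have h6 := hx'.1
    linarith
  have hpw : Set.Pairwise (T : Set (ℤ × ℤ)) (Function.onFun Disjoint J) := by
    intro e he e' he' hne
    rcases lt_trichotomy ((e.1 : ℝ) * e'.2) (e'.1 * e.2) with hlt | heq | hgt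
    · exact hdisj e he e' he' hlt
    · exfalso
      apply hne
      have h1 : e.1 * e'.2 = e'.1 * e.2 := by exact_mod_cast heq
      have hc := (hT e he).2.2.2.2.1
      have hc' := (hT e' he').2.2.2.2.1
      have h2 : e.2 ∣ e'.2 := hc.symm.dvd_of_dvd_mul_left (by
        rw [h1]; exact Dvd.intro_left _ rfl)
      have h3 : e'.2 ∣ e.2 := hc'.symm.dvd_of_dvd_mul_left (by
        rw [← h1]; exact Dvd.intro_left _ rfl)
      have hz1 : 0 < e.2 := by exact_mod_cast hq e he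
      have hz2 : 0 < e'.2 := by exact_mod_cast hq e' he'
      have h4 : e.2 = e'.2 := Int.dvd_antisymm hz1.le hz2.le h2 h3
      rw [h4] at h1
      have h5 : e.1 = e'.1 := mul_right_cancel₀ hz2.ne' h1
      exact Prod.ext h5 h4
    · exact (hdisj e' he' e he hgt).symm
  -- the integrals
  have hGi : IntegrableOn G (Set.Ioc 0 1) := hGc.integrableOn_Icc.mono_set Set.Ioc_subset_Icc_self
  have hsum : ∫ u in ⋃ e ∈ T, J e, G u = ∑ e ∈ T, ∫ u in J e, G u :=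
    integral_biUnion_finset T (fun e _ => measurableSet_Ioc) hpw
      (fun e he => hGi.mono_set (hJsub e he))
  have hge : ∀ e ∈ T, m * (δ / 2) ≤ ∫ u in J e, G u := by
    intro e he
    have hc : IntegrableOn (fun _ : ℝ => m) (J e) :=
      integrableOn_const (hs := by rw [hJ]; simp)
    calc m * (δ / 2) = ∫ u in J e, m := by
          rw [setIntegral_const, hJ]
          simp only
          rw [Measure.real, Real.volume_Ioc, add_sub_cancel_left,
            ENNReal.toReal_ofReal (by positivity), smul_eq_mul, mul_comm]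
      _ ≤ _ := setIntegral_mono_on hc (hGi.mono_set (hJsub e he)) measurableSet_Ioc (hlow2 e he)
  rw [intervalIntegral.integral_of_le zero_le_one]
  calc T.card * (δ / 2) * m = ∑ e ∈ T, m * (δ / 2) := by
        rw [Finset.sum_const, nsmul_eq_mul]; ring
    _ ≤ ∑ e ∈ T, ∫ u in J e, G u := Finset.sum_le_sum hge
    _ = ∫ u in ⋃ e ∈ T, J e, G u := hsum.symm
    _ ≤ ∫ u in Set.Ioc 0 1, G u := setIntegral_mono_set hGi
        (Eventually.of_forall fun u => by rw [hG]; positivity)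
        (LE.le.eventuallyLE (Set.iUnion₂_subset hJsub))

end M2b

theorem m2b : S_M2b := by
  intro hc N k F b κ h
  obtain ⟨Y0, hY0, hlow⟩ := M2b.lowF h
  have hN1 : (1 : ℝ) ≤ N := by exact_mod_cast h.hN
  have hrN1 : 1 ≤ Real.sqrt N := Real.one_le_sqrt.2 hN1
  have hrN0 : 0 < Real.sqrt N := by linarith
  have hx : 3 / 2 / Real.sqrt N < 2 / Real.sqrt N := by
    rw [div_lt_div_iff_of_pos_right hrN0]
    norm_num
  obtain ⟨c1, Q1, hc1, hQ1, H1⟩ := hc N 1 _ _ h.hN (Or.inl rfl) hx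
  obtain ⟨c2, Q2, hc2, hQ2, H2⟩ := hc N (-1) _ _ h.hN (Or.inr rfl) hx
  have hY00 : 0 < Y0 := by linarith
  set A : ℝ := 1 / (15 * Y0) with hA
  have hA0 : 0 < A := by positivity
  set Qm : ℝ := max Q1 Q2 with hQm
  have hQm1 : 1 ≤ Qm := hQ1.trans (le_max_left _ _)
  have hb1 : 0 < ‖b 1‖ := norm_pos_iff.2 h.b1
  have hκ : 0 < ‖κ‖ := norm_pos_iff.2 h.κ0
  set M : ℝ := ‖κ‖ ^ 2 * (‖b 1‖ / 2 *
      Real.exp (-(2 * Real.pi * (30 * Y0 * Real.sqrt N)))) ^ 2 with hM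
  have hM0 : 0 < M := by positivity
  have hcm : 0 < min c1 c2 := lt_min hc1 hc2
  refine ⟨min c1 c2 * A / 2 * M / (3 / Y0) ^ k, min (1 / 5) (A / Qm ^ 2), by positivity,
    by positivity, lt_of_le_of_lt (min_le_left _ _) (by norm_num), fun δ hδ hδ0 σ hσ => ?_⟩
  have hδ5 : δ ≤ 1 / 5 := hδ0.trans (min_le_left _ _)
  have hδA : δ * Qm ^ 2 ≤ A := by
    have := hδ0.trans (min_le_right _ _)
    rwa [le_div_iff₀ (by positivity)] at this
  set Q : ℝ := Real.sqrt (A / δ) with hQ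
  have hQ2 : Q ^ 2 = A / δ := Real.sq_sqrt (by positivity)
  have hQpos : 0 < Q := Real.sqrt_pos.2 (by positivity)
  have hQmul : Q ^ 2 * (15 * Y0 * δ) = 1 := by
    rw [hQ2, hA]
    field_simp
  have hQmQ : Qm ≤ Q := by
    apply Real.le_sqrt_of_sq_le
    rw [le_div_iff₀ hδ]
    linarith
  have hfin : ∀ (s : ℤ) (c : ℝ) (T : Finset (ℤ × ℤ)), (s = 1 ∨ s = -1) → min c1 c2 ≤ c →
      c * Q ^ 2 ≤ T.card → (∀ e ∈ T, Q ≤ e.2 ∧ (e.2 : ℝ) ≤ 2 * Q ∧ (N : ℤ) ∣ e.2 ∧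
        (N : ℤ) ∣ e.1 - s ∧ IsCoprime e.1 e.2 ∧ 3 / 2 / Real.sqrt N * e.2 ≤ e.1 ∧
        (e.1 : ℝ) ≤ 2 / Real.sqrt N * e.2) →
      min c1 c2 * A / 2 * M / (3 / Y0) ^ k * δ ^ (-(k : ℝ)) ≤
        ∫ u in (0 : ℝ)..1, ‖Km N k F κ ((u : ℂ) + ((s : ℝ) * (Real.pi / 2 - δ) : ℝ) * I)‖ ^ 2 := by
    intro s c T hs hcc hcard hT
    refine le_trans ?_ (M2b.key h hY0 hlow s hs T hδ hδ5 hQpos hQmul hT)
    have h1 : min c1 c2 * A ≤ T.card * δ := by
      calc min c1 c2 * A ≤ c * A := mul_le_mul_of_nonneg_right hcc hA0.le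
        _ = c * Q ^ 2 * δ := by rw [hQ2]; field_simp
        _ ≤ T.card * δ := mul_le_mul_of_nonneg_right hcard hδ.le
    have h2 : ‖κ‖ ^ 2 * ((‖b 1‖ / 2 *
        Real.exp (-(2 * Real.pi * (30 * Y0 * Real.sqrt N)))) ^ 2 / (3 * δ / Y0) ^ k) =
        M / (3 / Y0) ^ k * (δ ^ k)⁻¹ := by
      have h4 : (3 * δ / Y0) ^ k = (3 / Y0) ^ k * δ ^ k := by
        rw [← mul_pow]
        congr 1
        ring
      rw [hM, h4, ← div_eq_mul_inv, ← mul_div_assoc, div_div]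
    rw [h2, Real.rpow_neg hδ.le, Real.rpow_natCast]
    have h3 : 0 ≤ M / (3 / Y0) ^ k * (δ ^ k)⁻¹ := by positivity
    calc min c1 c2 * A / 2 * M / (3 / Y0) ^ k * (δ ^ k)⁻¹
        = min c1 c2 * A / 2 * (M / (3 / Y0) ^ k * (δ ^ k)⁻¹) := by ring
      _ ≤ T.card * δ / 2 * (M / (3 / Y0) ^ k * (δ ^ k)⁻¹) := by
          refine mul_le_mul_of_nonneg_right ?_ h3
          linarith
      _ = _ := by ring
  rcases hσ with hσ | hσ
  · obtain ⟨T, hT1, hT2⟩ := H1 Q ((le_max_left _ _).trans hQmQ)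
    have := hfin 1 c1 T (Or.inl rfl) (min_le_left _ _) hT1 hT2
    rw [hσ]
    simpa using this
  · obtain ⟨T, hT1, hT2⟩ := H2 Q ((le_max_right _ _).trans hQmQ)
    have := hfin (-1) c2 T (Or.inr rfl) (min_le_right _ _) hT1 hT2
    rw [hσ]
    simpa using this

end Pool.Agent.N558.GN
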