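import Pool.Agent.N963.GN.Stm4
import Pool.Agent.N963.GN.D1
import Pool.Agent.N963.GN.W

set_option autoImplicit false

/-!
# Task Z0: antiderivatives of the transform violate the strong Laguerre inequality
-/

namespace Pool.Agent.N558.GN

open Complex Filter Topology MeasureTheory
open scoped ComplexConjugate FourierTransform
open Pool.Agent.N963.GN

variable {K : ℂ → ℂ} {α : ℝ}

lemma k_cont (hK : Kern K α) : Continuous (fun u : ℝ => K (u : ℂ)) := by
  rw [continuous_iff_continuousAt]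
  intro u
  have h1 : ContinuousAt K (u : ℂ) := (hK.diff u (by simp [hK.pos])).continuousAt
  exact h1.comp Complex.continuous_ofReal.continuousAt

lemma k_wt (hK : Kern K α) : Wt (fun u : ℝ => K (u : ℂ)) := by
  refine Wt.of_norm (k_cont hK).aestronglyMeasurable fun M hM => ?_
  obtain ⟨C, hC, h⟩ := hK.dec 0 le_rfl hK.pos (M + 1)
  refine (exp_abs_integrable C).mono' (by
    exact ((k_cont hK).norm.mul (by fun_prop)).aestronglyMeasurable) (Eventually.of_forall fun u => ?_)
  have h1 := h (u : ℂ) (by simp)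
  rw [Complex.ofReal_re] at h1
  rw [Real.norm_eq_abs, abs_mul, abs_norm, Real.abs_exp]
  calc ‖K (u : ℂ)‖ * Real.exp (M * |u|) ≤ C * Real.exp (-((M + 1) * |u|)) * Real.exp (M * |u|) := by
        gcongr
    _ = C * Real.exp (-|u|) := by
        rw [mul_assoc, ← Real.exp_add]
        congr 2
        ring

/-- The transform on the right half-line. -/
lemma decay_pos {k : ℂ → ℂ} {t C : ℝ} (ht : 0 ≤ t)
    (hd : ∀ w : ℂ, |w.im| ≤ t → DifferentiableAt ℂ k w)
    (hb : ∀ w : ℂ, |w.im| ≤ t → ‖k w‖ ≤ C * Real.exp (-|w.re|)) (x : ℝ) (hx : 0 ≤ x) :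
    ‖∫ u : ℝ, k (u : ℂ) * cexp (I * x * u)‖ ≤
      (∫ u : ℝ, C * Real.exp (-|u|)) * Real.exp (-(t * x)) := by
  have habs : ∀ w : ℂ, 0 ≤ w.im → w.im ≤ t → |w.im| ≤ t := fun w h1 h2 => by
    rw [abs_of_nonneg h1]; exact h2
  have hexp : ∀ w : ℂ, ‖cexp (I * x * w)‖ = Real.exp (-(x * w.im)) := by
    intro w
    rw [Complex.norm_exp]
    congr 1
    simp
  have h1 := shift (φ := fun w => k w * cexp (I * x * w)) ht
    (fun w h1 h2 => (hd w (habs w h1 h2)).mul (by fun_prop)) (C := C) (fun w h1 h2 => by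
      rw [norm_mul, hexp]
      have h3 : Real.exp (-(x * w.im)) ≤ 1 := Real.exp_le_one_iff.2 (by
        have := mul_nonneg hx h1
        linarith)
      calc ‖k w‖ * Real.exp (-(x * w.im)) ≤ ‖k w‖ * 1 := by gcongr
        _ = ‖k w‖ := mul_one _
        _ ≤ _ := hb w (habs w h1 h2))
  rw [h1.2.2, ← integral_mul_const]
  refine norm_integral_le_of_norm_le ((exp_abs_integrable C).mul_const _)
    (Eventually.of_forall fun u => ?_)
  rw [norm_mul, hexp]
  have h2 := hb ((u : ℂ) + t * I) (by simp [abs_of_nonneg ht])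
  have h3 : ((u : ℂ) + t * I).re = u := by simp
  have h4 : ((u : ℂ) + t * I).im = t := by simp
  rw [h3] at h2
  rw [h4, mul_comm x t]
  gcongr

/-- The transform on the real line. -/
lemma decay {k : ℂ → ℂ} {t C : ℝ} (ht : 0 ≤ t)
    (hd : ∀ w : ℂ, |w.im| ≤ t → DifferentiableAt ℂ k w)
    (hb : ∀ w : ℂ, |w.im| ≤ t → ‖k w‖ ≤ C * Real.exp (-|w.re|)) (x : ℝ) :
    ‖∫ u : ℝ, k (u : ℂ) * cexp (I * x * u)‖ ≤
      (∫ u : ℝ, C * Real.exp (-|u|)) * Real.exp (-(t * |x|)) := by
  rcases le_total 0 x with hx | hx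
  · rw [abs_of_nonneg hx]
    exact decay_pos ht hd hb x hx
  · have h1 := decay_pos (k := fun w => k (-w)) ht
      (fun w hw => by
        have h2 : DifferentiableAt ℂ k (-w) := hd (-w) (by simpa using hw)
        exact h2.comp w (by fun_prop))
      (fun w hw => by
        have h2 := hb (-w) (by simpa using hw)
        simpa using h2) (-x) (by linarith)
    rw [abs_of_nonpos hx]
    refine le_trans (le_of_eq ?_) h1
    rw [← integral_neg_eq_self (fun u : ℝ => k (u : ℂ) * cexp (I * x * u))]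
    congr 1
    refine integral_congr_ae (Eventually.of_forall fun u => ?_)
    simp only
    congr 1
    · push_cast; rfl
    · congr 1
      push_cast
      ring

theorem z0 : S_Z0 := by
  intro K α hK hK0 G hG hG' hSL
  set t : ℝ := α / 2 with ht
  have hα := hK.pos
  have ht0 : 0 < t := by rw [ht]; positivity
  have htα : t < α := by rw [ht]; linarith
  set X : ℂ → ℂ := Lt (fun u : ℝ => K (u : ℂ)) with hX
  have hwt := k_wt hK
  have hdG : deriv G = X := funext hG'
  have hdX : deriv X = Lt (fun u : ℝ => K (u : ℂ) * (I * u)) := deriv_Lt hwt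
  -- decay of `X` and `X'`
  have hdiff : ∀ w : ℂ, |w.im| ≤ t → DifferentiableAt ℂ K w := fun w hw =>
    hK.diff w (hw.trans_lt htα)
  obtain ⟨C, hC, hdec⟩ := hK.dec t ht0.le htα 2
  have hb0 : ∀ w : ℂ, |w.im| ≤ t → ‖K w‖ ≤ C * (1 + t) * Real.exp (-|w.re|) := by
    intro w hw
    refine (hdec w hw).trans ?_
    have h1 : Real.exp (-(2 * |w.re|)) ≤ Real.exp (-|w.re|) :=
      Real.exp_le_exp.2 (by linarith [abs_nonneg w.re])
    calc C * Real.exp (-(2 * |w.re|)) ≤ C * Real.exp (-|w.re|) := by gcongr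
      _ ≤ C * (1 + t) * Real.exp (-|w.re|) := by
        have : C ≤ C * (1 + t) := by nlinarith
        gcongr
  have hb1 : ∀ w : ℂ, |w.im| ≤ t → ‖K w * (I * w)‖ ≤ C * (1 + t) * Real.exp (-|w.re|) := by
    intro w hw
    rw [norm_mul, norm_mul, Complex.norm_I, one_mul]
    have h1 : ‖w‖ ≤ (1 + t) * Real.exp |w.re| := by
      have h2 := Complex.norm_le_abs_re_add_abs_im w
      have h3 := Real.add_one_le_exp |w.re|
      have h4 := abs_nonneg w.re
      nlinarith
    calc ‖K w‖ * ‖w‖ ≤ (C * Real.exp (-(2 * |w.re|))) * ((1 + t) * Real.exp |w.re|) := by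
          gcongr
          exact hdec w hw
      _ = C * (1 + t) * (Real.exp (-(2 * |w.re|)) * Real.exp |w.re|) := by ring
      _ = C * (1 + t) * Real.exp (-|w.re|) := by
          rw [← Real.exp_add]
          congr 2
          ring
  set B : ℝ := ∫ u : ℝ, C * (1 + t) * Real.exp (-|u|) with hB
  have hB0 : 0 ≤ B := integral_nonneg fun u => by positivity
  have hXd : ∀ x : ℝ, ‖X x‖ ≤ B * Real.exp (-(t * |x|)) := fun x => decay ht0.le hdiff hb0 x
  have hX'd : ∀ x : ℝ, ‖deriv X x‖ ≤ B * Real.exp (-(t * |x|)) := by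
    intro x
    rw [hdX]
    exact decay (k := fun w => K w * (I * w)) ht0.le
      (fun w hw => (hdiff w hw).mul (by fun_prop)) hb1 x
  have hXcont : Continuous (fun x : ℝ => X (x : ℂ)) :=
    (diff_Lt hwt).continuous.comp Complex.continuous_ofReal
  have hint0 : Integrable (fun x : ℝ => B * Real.exp (-(t * |x|))) := by
    have h1 := (exp_abs_integrable B).comp_mul_left' ht0.ne'
    refine h1.congr (Eventually.of_forall fun x => ?_)
    simp only
    rw [abs_mul, abs_of_pos ht0]
  have hXint : Integrable (fun x : ℝ => X (x : ℂ)) :=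
    hint0.mono' hXcont.aestronglyMeasurable (Eventually.of_forall hXd)
  -- the integral of `X`
  have hpi : (0 : ℝ) < 2 * Real.pi := by positivity
  have hFeq : ∀ ξ : ℝ, 𝓕 (fun u : ℝ => K (u : ℂ)) ξ = X ((-(2 * Real.pi * ξ) : ℝ) : ℂ) := by
    intro ξ
    have h1 := fourier_neg_eq (fun u : ℝ => K (u : ℂ)) (-(2 * Real.pi * ξ))
    have h2 : -(-(2 * Real.pi * ξ) / (2 * Real.pi)) = ξ := by
      field_simp
    rw [h2] at h1
    rw [← h1]
    rfl
  have hFint : Integrable (𝓕 (fun u : ℝ => K (u : ℂ))) := by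
    have h1 := hXint.comp_mul_left' (R := -(2 * Real.pi)) (neg_ne_zero.2 hpi.ne')
    refine h1.congr (Eventually.of_forall fun ξ => ?_)
    rw [hFeq]
    simp only
    congr 2
    ring
  have hinv := hwt.integrable.fourierInv_fourier_eq hFint (v := (0 : ℝ)) (k_cont hK).continuousAt
  have hIX : ∫ x : ℝ, X (x : ℂ) = 2 * Real.pi * K 0 := by
    rw [Real.fourierInv_eq'] at hinv
    simp only [inner_zero_right, mul_zero, Complex.ofReal_zero, zero_mul, Complex.exp_zero,
      one_smul] at hinv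
    have h1 : (fun ξ : ℝ => 𝓕 (fun u : ℝ => K (u : ℂ)) ξ) =
        fun ξ : ℝ => (fun x : ℝ => X (x : ℂ)) (-(2 * Real.pi) * ξ) := by
      funext ξ
      rw [hFeq]
      simp only
      congr 2
      ring
    rw [h1, Measure.integral_comp_mul_left (fun x : ℝ => X (x : ℂ)) (-(2 * Real.pi))] at hinv
    rw [inv_neg, abs_neg, abs_of_pos (inv_pos.2 hpi)] at hinv
    rw [← hinv, Complex.real_smul]
    push_cast
    have : (Real.pi : ℂ) ≠ 0 := by exact_mod_cast Real.pi_ne_zero
    field_simp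
  -- `G` tends to `0`
  obtain ⟨x1, hx1, hL⟩ := hSL 1
  have hGb : ∀ x : ℝ, max x1 (Real.exp 1) ≤ |x| → ‖G x‖ ≤ 2 * B * Real.exp (-(t * |x|)) := by
    intro x hx
    have h1 := hL x ((le_max_left _ _).trans hx)
    have h2 : 1 ≤ Real.log |x| := by
      have h3 : Real.exp 1 ≤ |x| := (le_max_right _ _).trans hx
      have h4 := Real.log_le_log (Real.exp_pos 1) h3
      rwa [Real.log_exp] at h4
    rw [one_mul, hdG] at h1
    set E : ℝ := B * Real.exp (-(t * |x|)) with hE
    have hE0 : 0 ≤ E := by positivity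
    have h3 : ((X x) ^ 2 - G x * deriv X x).re ≤ E ^ 2 + ‖G x‖ * E := by
      refine (Complex.re_le_norm _).trans ((norm_sub_le _ _).trans ?_)
      rw [norm_pow, norm_mul]
      have h4 := hXd x
      have h5 := hX'd x
      gcongr
    have h4 : ‖G x‖ ^ 2 ≤ E ^ 2 + ‖G x‖ * E := by
      have h5 : 1 * ‖G x‖ ^ 2 ≤ Real.log |x| * ‖G x‖ ^ 2 := by gcongr
      linarith
    have h5 : ‖G x‖ ≤ 2 * E := by
      by_contra hcon
      push Not at hcon
      nlinarith [norm_nonneg (G x)]
    calc ‖G x‖ ≤ 2 * E := h5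
      _ = _ := by rw [hE]; ring
  have hexp0 : Tendsto (fun x : ℝ => 2 * B * Real.exp (-(t * |x|))) atTop (𝓝 0) := by
    have h1 : Tendsto (fun x : ℝ => Real.exp (-(t * |x|))) atTop (𝓝 0) := by
      refine (Real.tendsto_exp_atBot).comp ?_
      refine tendsto_neg_atTop_atBot.comp ?_
      exact (tendsto_abs_atTop_atTop).const_mul_atTop ht0
    simpa using h1.const_mul (2 * B)
  have hG1 : Tendsto (fun x : ℝ => G (x : ℂ)) atTop (𝓝 0) := by
    refine squeeze_zero_norm' ?_ hexp0
    filter_upwards [eventually_ge_atTop (max x1 (Real.exp 1))] with x hx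
    exact hGb x (hx.trans (le_abs_self x))
  have hG2 : Tendsto (fun x : ℝ => G ((-x : ℝ) : ℂ)) atTop (𝓝 0) := by
    refine squeeze_zero_norm' ?_ hexp0
    filter_upwards [eventually_ge_atTop (max x1 (Real.exp 1))] with x hx
    have := hGb (-x) (by rw [abs_neg]; exact hx.trans (le_abs_self x))
    rwa [abs_neg] at this
  have hFTC : ∀ R : ℝ, ∫ x in (-R)..R, X (x : ℂ) = G (R : ℂ) - G ((-R : ℝ) : ℂ) := by
    intro R
    refine intervalIntegral.integral_eq_sub_of_hasDerivAt (f := fun x : ℝ => G (x : ℂ)) ?_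
      (hXcont.intervalIntegrable _ _)
    intro x _
    have h1 : HasDerivAt G (deriv G x) (x : ℂ) := (hG x).hasDerivAt
    rw [hdG] at h1
    exact h1.comp_ofReal
  have hlim1 := intervalIntegral_tendsto_integral hXint tendsto_neg_atTop_atBot tendsto_id
  have hlim2 : Tendsto (fun R : ℝ => ∫ x in (-R)..R, X (x : ℂ)) atTop (𝓝 0) := by
    have h1 := hG1.sub hG2
    rw [sub_zero] at h1
    exact h1.congr fun R => (hFTC R).symm
  have h3 := tendsto_nhds_unique hlim1 hlim2
  rw [hIX] at h3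
  have hpi' : (2 * Real.pi : ℂ) ≠ 0 := by exact_mod_cast hpi.ne'
  exact hK0 ((mul_eq_zero.1 h3).resolve_left hpi')

end Pool.Agent.N558.GN
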